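import Pool.Agent.R428.G.Loc

/-!
# A change of variables on `y² = x³ + A x` above two, `w A = exp (-2)`
-/

set_option autoImplicit false
set_option linter.unusedSectionVars false

namespace Pool.Agent.E8helper78.QK

open WithZero
open Pool.Agent.R428.G (L2 exp_lt_one')

section loc

variable {L : Type} [Field L] {w : Valuation L ℤᵐ⁰} {i : L} (H : L2 w i)
include H

/-- no change of variables with a factor in the maximal ideal gives integral coefficients -/
lemma change2 {A u r s t : L} (hu : u ≠ 0) (hu1 : w u ≤ exp (-1 : ℤ))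
    (hA : w A = exp (-2 : ℤ))
    (h2' : w (u⁻¹ ^ 2 * (3 * r - s ^ 2)) ≤ 1)
    (h3' : w (u⁻¹ ^ 3 * (2 * t)) ≤ 1) (h4' : w (u⁻¹ ^ 4 * (A + 3 * r ^ 2 - 2 * s * t)) ≤ 1)
    (h6' : w (u⁻¹ ^ 6 * (r * A + r ^ 3 - t ^ 2)) ≤ 1) : False := by
  have hvu : w u ≠ 0 := (Valuation.ne_zero_iff _).2 hu
  have hcl : ∀ (n : ℕ) (x : L), w (u⁻¹ ^ n * x) ≤ 1 → w x ≤ exp (-(n : ℤ)) := by
    intro n x hx
    rw [map_mul, map_pow, map_inv₀, inv_pow] at hx
    have h5 : w x = w u ^ n * ((w u ^ n)⁻¹ * w x) := by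
      rw [← mul_assoc, mul_inv_cancel₀ (pow_ne_zero n hvu), one_mul]
    rw [h5]
    refine (mul_le_of_le_one_right' hx).trans ?_
    calc w u ^ n ≤ (exp (-1 : ℤ)) ^ n := by gcongr
      _ = exp (-(n : ℤ)) := by rw [← exp_nsmul]; congr 1; simp
  have k2 : w (3 * r - s ^ 2) ≤ exp (-2 : ℤ) := hcl 2 _ h2'
  have k3 : w (2 * t) ≤ exp (-3 : ℤ) := hcl 3 _ h3'
  have k4 : w (A + 3 * r ^ 2 - 2 * s * t) ≤ exp (-4 : ℤ) := hcl 4 _ h4'
  have k6 : w (r * A + r ^ 3 - t ^ 2) ≤ exp (-6 : ℤ) := hcl 6 _ h6'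
  have hlt : ∀ n : ℤ, n < 0 → (exp n : ℤᵐ⁰) < 1 := fun n hn => exp_lt_one' hn
  have h3 := H.three
  -- `t`
  have ht : w t ≤ exp (-1 : ℤ) := by
    have h5 : exp (-2 : ℤ) * w t ≤ exp (-3 : ℤ) := by
      rw [← H.h2, ← map_mul]
      exact k3
    have h7 : w t = exp (2 : ℤ) * (exp (-2 : ℤ) * w t) := by
      rw [← mul_assoc, ← exp_add]; norm_num
    rw [h7]
    calc exp (2 : ℤ) * (exp (-2 : ℤ) * w t) ≤ exp (2 : ℤ) * exp (-3 : ℤ) := by gcongr
      _ = exp (-1 : ℤ) := by rw [← exp_add]; norm_num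
  have ht2 : w (t ^ 2) ≤ exp (-2 : ℤ) := by
    rw [map_pow]
    calc w t ^ 2 ≤ (exp (-1 : ℤ)) ^ 2 := by gcongr
      _ = exp (-2 : ℤ) := by rw [← exp_nsmul]; rfl
  -- `r` is integral
  have hr : w r ≤ 1 := by
    by_contra h5
    rw [not_le] at h5
    have h10 : 1 < w r ^ 2 := one_lt_pow₀ h5 two_ne_zero
    have hr3 : 1 < w r ^ 3 := one_lt_pow₀ h5 (by norm_num)
    have e1 : w (r * A + r ^ 3) = w r ^ 3 := by
      have e2 : w (r ^ 3) = w r ^ 3 := map_pow _ _ _
      rw [Valuation.map_add_eq_of_lt_right, e2]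
      rw [e2, map_mul, hA]
      calc w r * exp (-2 : ℤ) ≤ w r * 1 := by gcongr; exact (hlt _ (by norm_num)).le
        _ = w r := mul_one _
        _ < w r ^ 3 := by
          calc w r = w r * 1 := (mul_one _).symm
            _ < w r * w r ^ 2 := by
              apply mul_lt_mul_of_pos_left h10
              exact lt_trans (by exact zero_lt_one) h5
            _ = w r ^ 3 := (pow_succ' (w r) 2).symm
    have e3 : w (r * A + r ^ 3 - t ^ 2) = w r ^ 3 := by
      rw [Valuation.map_sub_eq_of_lt_left, e1]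
      rw [e1]
      exact lt_of_le_of_lt (ht2.trans (hlt _ (by norm_num)).le) hr3
    rw [e3] at k6
    exact absurd hr3 (not_lt.2 (k6.trans (hlt _ (by norm_num)).le))
  -- `s` is integral
  have hs : w s ≤ 1 := by
    by_contra h5
    rw [not_le] at h5
    have h10 : 1 < w s ^ 2 := one_lt_pow₀ h5 two_ne_zero
    have e1 : w (s ^ 2) ≤ 1 := by
      have e : s ^ 2 = 3 * r - (3 * r - s ^ 2) := by ring
      rw [e]
      refine (Valuation.map_sub _ _ _).trans (max_le ?_ (k2.trans (hlt _ (by norm_num)).le))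
      rw [map_mul, h3, one_mul]
      exact hr
    rw [map_pow] at e1
    exact absurd h10 (not_lt.2 e1)
  have hst : w (2 * s * t) ≤ exp (-3 : ℤ) := by
    have e : 2 * s * t = s * (2 * t) := by ring
    rw [e, map_mul]
    calc w s * w (2 * t) ≤ 1 * exp (-3 : ℤ) := mul_le_mul' hs k3
      _ = exp (-3 : ℤ) := one_mul _
  have hAr : w (A + 3 * r ^ 2) ≤ exp (-3 : ℤ) := by
    have e : A + 3 * r ^ 2 = (A + 3 * r ^ 2 - 2 * s * t) + 2 * s * t := by ring
    rw [e]
    exact (Valuation.map_add _ _ _).trans (max_le (k4.trans (exp_le_exp.2 (by norm_num))) hst)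
  have hr2 : w (r ^ 2) = exp (-2 : ℤ) := by
    have e : 3 * r ^ 2 = -A + (A + 3 * r ^ 2) := by ring
    have h5 : w (3 * r ^ 2) = exp (-2 : ℤ) := by
      rw [e, Valuation.map_add_eq_of_lt_left, Valuation.map_neg, hA]
      rw [Valuation.map_neg, hA]
      exact lt_of_le_of_lt hAr (exp_lt_exp.2 (by norm_num))
    rwa [map_mul, h3, one_mul] at h5
  have hr1 : w r = exp (-1 : ℤ) := by
    have hne : w r ≠ 0 := by
      intro h0
      rw [map_pow, h0, zero_pow two_ne_zero] at hr2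
      exact exp_ne_zero hr2.symm
    rw [map_pow] at hr2
    rw [← exp_log hne] at hr2 ⊢
    rw [← exp_nsmul, exp_inj, nsmul_eq_mul] at hr2
    push_cast at hr2
    rw [exp_inj]
    omega
  have hs2 : w (s ^ 2) = exp (-1 : ℤ) := by
    have e : s ^ 2 = 3 * r - (3 * r - s ^ 2) := by ring
    have h6 : w (3 * r) = exp (-1 : ℤ) := by rw [map_mul, h3, hr1, one_mul]
    rw [e, Valuation.map_sub_eq_of_lt_left, h6]
    rw [h6]
    exact lt_of_le_of_lt k2 (exp_lt_exp.2 (by norm_num))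
  have h7 := congrArg WithZero.log hs2
  rw [map_pow, WithZero.log_pow, WithZero.log_exp, nsmul_eq_mul] at h7
  push_cast at h7
  omega

end loc

end Pool.Agent.E8helper78.QK
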