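import Pool.Agent.E8helper75.QK.Stm
import Pool.Agent.E8helper78.QK.Chg

/-!
# Minimality of `y² = x³ + 2 D x` over `ℚ(i)`
-/

set_option autoImplicit false
set_option linter.unusedSectionVars false

open NumberField IsDedekindDomain

namespace Pool.Agent.E8helper78.QK

open scoped Classical
open WeierstrassCurve WithZero
open Pool.Agent.Y682 (vv vv_coe)
open Pool.Agent.Y699 (PP qr pi1 pi1_prime plc pg pg_span pg_prime plc_pg mem_iff)
open Pool.Agent.Y715.Z (em0 em0_ne em0_inj em0_apply plc_mem val_lt val_le val_one val_z val_sqf ph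
  im1_sq q4 q4_Δ q4_map isMinimal_q4 mem_max approx val_pow_le val_two1 ns_good)
open H385 (ZI RQ im1 nrm)
open Pool.Agent.Y697.MQ (OP)
open Pool.Agent.R428.G (L2 exp_lt_one' lt_succ l2_place dvd_pi_of_two sqf_prod not_two)

section

variable {K : Type} [Field K] [NumberField K] (e : ZI ≃+* 𝓞 K)

/-- **minimality** -/
theorem minD2 {D : ZI} (hsq : Squarefree D) (hP : ∀ z : ZI, Prime z → z ∣ D → ¬ z ∣ 2)
    (v : HeightOneSpectrum (𝓞 K)) :
    WeierstrassCurve.IsMinimal (v.adicCompletionIntegers K)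
      (q4 (algebraMap K (v.adicCompletion K) (em0 e (2 * D)))) := by
  have hbc : q4 (algebraMap K (v.adicCompletion K) (em0 e (2 * D))) =
      q4 (algebraMap (v.adicCompletionIntegers K) (v.adicCompletion K)
        (algebraMap (𝓞 K) (v.adicCompletionIntegers K) (e (2 * D)))) := by
    congr 1
  rw [hbc]
  apply isMinimal_q4
  rw [← hbc]
  intro C hC u₀ hu₀ hu
  obtain ⟨z, hz, rfl⟩ : ∃ (z : ZI) (hz : Prime z), v = plc e hz :=
    ⟨_, pg_prime e v, (plc_pg e v).symm⟩
  set w := vv (plc e hz) with hw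
  have hu1 : w ((C.u : _ˣ) : (plc e hz).adicCompletion K) < 1 := by
    rw [← hu]
    exact (mem_max _ _).1 hu₀
  have hu2 : w ((C.u : _ˣ) : (plc e hz).adicCompletion K) ≤ exp (-1 : ℤ) := by
    rw [← exp_zero] at hu1
    have := lt_succ hu1
    simpa using this
  obtain ⟨⟨W₀, hW₀⟩⟩ := hC
  have hint : ∀ a : (plc e hz).adicCompletionIntegers K,
      w (algebraMap _ ((plc e hz).adicCompletion K) a) ≤ 1 := fun a =>
    (HeightOneSpectrum.mem_adicCompletionIntegers (𝓞 K) K (plc e hz)).1 a.2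
  have b2 : w (C • q4 (ph e hz (em0 e (2 * D)))).a₂ ≤ 1 := by
    rw [hW₀]; exact hint _
  have b3 : w (C • q4 (ph e hz (em0 e (2 * D)))).a₃ ≤ 1 := by
    rw [hW₀]; exact hint _
  have b4 : w (C • q4 (ph e hz (em0 e (2 * D)))).a₄ ≤ 1 := by
    rw [hW₀]; exact hint _
  have b6 : w (C • q4 (ph e hz (em0 e (2 * D)))).a₆ ≤ 1 := by
    rw [hW₀]; exact hint _
  have bΔ : w (C • q4 (ph e hz (em0 e (2 * D)))).Δ ≤ 1 := by
    rw [hW₀]
    have : (W₀.baseChange ((plc e hz).adicCompletion K)).Δ =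
        algebraMap _ ((plc e hz).adicCompletion K) W₀.Δ := WeierstrassCurve.map_Δ _ _
    rw [this]
    exact hint _
  obtain ⟨u, hu'⟩ : ∃ u : (plc e hz).adicCompletion K, u = ((C.u : _ˣ) : (plc e hz).adicCompletion K) :=
    ⟨_, rfl⟩
  have hu0 : u ≠ 0 := by rw [hu']; exact C.u.ne_zero
  have huinv : ((C.u⁻¹ : _ˣ) : (plc e hz).adicCompletion K) = u⁻¹ := by
    rw [Units.val_inv_eq_inv_val, hu']
  rw [← hu'] at hu2
  have h2e : ph e hz (em0 e (2 * D)) = 2 * ph e hz (em0 e D) := by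
    rw [map_mul, map_mul, map_ofNat, map_ofNat]
  by_cases h2 : z ∣ 2
  · -- above two
    have hpl := dvd_pi_of_two e (K := K) hz h2
    have hL2 := l2_place e _ hpl
    have hA : w (ph e hz (em0 e (2 * D))) = exp (-2 : ℤ) := by
      rw [h2e, map_mul, hL2.h2, hw, vv_coe, val_one e hz (fun hd => hP z hz hd h2), mul_one]
    refine change2 hL2 (r := C.r) (s := C.s) (t := C.t) hu0 hu2 hA ?_ ?_ ?_ ?_
    · rw [WeierstrassCurve.variableChange_a₂, huinv] at b2
      simpa [q4] using b2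
    · rw [WeierstrassCurve.variableChange_a₃, huinv] at b3
      simpa [q4] using b3
    · rw [WeierstrassCurve.variableChange_a₄, huinv] at b4
      simpa [q4] using b4
    · rw [WeierstrassCurve.variableChange_a₆, huinv] at b6
      simpa [q4] using b6
  · -- away from two: the discriminant
    rw [WeierstrassCurve.variableChange_Δ, huinv, q4_Δ, map_mul, map_pow, map_inv₀, inv_pow] at bΔ
    have hwu : w u ≠ 0 := (Valuation.ne_zero_iff _).2 hu0
    have h64 : w (-64 * ph e hz (em0 e (2 * D)) ^ 3) ≤ w u ^ 12 := by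
      have h5 : w (-64 * ph e hz (em0 e (2 * D)) ^ 3) =
          w u ^ 12 * ((w u ^ 12)⁻¹ * w (-64 * ph e hz (em0 e (2 * D)) ^ 3)) := by
        rw [← mul_assoc, mul_inv_cancel₀ (pow_ne_zero 12 hwu), one_mul]
      rw [h5]
      exact mul_le_of_le_one_right' bΔ
    have hw2 : w (2 : (plc e hz).adicCompletion K) = 1 := by
      have := val_one e hz h2
      rw [map_ofNat] at this
      have h3 : (2 : (plc e hz).adicCompletion K) = ph e hz 2 := (map_ofNat _ 2).symm
      rw [hw, h3, vv_coe, this]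
    have hw64 : w (-64 : (plc e hz).adicCompletion K) = 1 := by
      have : (-64 : (plc e hz).adicCompletion K) = -(2 ^ 6) := by norm_num
      rw [this, Valuation.map_neg, map_pow, hw2, one_pow]
    have hwD : exp (-1 : ℤ) ≤ w (ph e hz (em0 e (2 * D))) := by
      rw [h2e, map_mul, hw2, one_mul]
      by_cases hd : z ∣ D
      · rw [hw, vv_coe, val_sqf e hz hsq hd]
      · rw [hw, vv_coe, val_one e hz hd, ← exp_zero, exp_le_exp]
        norm_num
    rw [map_mul, hw64, one_mul, map_pow] at h64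
    have h12 : (exp (-3 : ℤ) : ℤᵐ⁰) ≤ exp (-12 : ℤ) := by
      calc (exp (-3 : ℤ) : ℤᵐ⁰) = (exp (-1 : ℤ)) ^ 3 := by rw [← exp_nsmul]; rfl
        _ ≤ w (ph e hz (em0 e (2 * D))) ^ 3 := by gcongr
        _ ≤ w u ^ 12 := h64
        _ ≤ (exp (-1 : ℤ)) ^ 12 := by gcongr
        _ = exp (-12 : ℤ) := by rw [← exp_nsmul]; rfl
    rw [exp_le_exp] at h12
    norm_num at h12

end

/-- **MINK** -/
theorem t_MINK : Pool.Agent.E8helper75.QK.S_MINK := by
  intro K _ _ e S hS v
  exact minD2 e (sqf_prod hS) (fun z hz hd => not_two hS hz hd) v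

end Pool.Agent.E8helper78.QK
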